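import Pool.Agent.H.MP_81ecdf_nt.E

set_option autoImplicit false

namespace Pool.Agent.Results.MP_3bedcc_nt.NoGenEscape

open Polynomial Filter Topology

variable {F : Type} [Field F]

/-- a polynomial in `t` as a Laurent series in `1/t` (the series variable is `1/t`) -/
noncomputable def emb (p : F[X]) : LaurentSeries F :=
  aeval (HahnSeries.single (-1 : ℤ) (1 : F) : LaurentSeries F) p

/-- the polynomial part -/
noncomputable def fl (x : LaurentSeries F) : F[X] :=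
  ∑ i ∈ Finset.range ((-x.order).toNat + 1), monomial i (x.coeff (-(i : ℤ)))

/-- complete quotients -/
noncomputable def cq (x : LaurentSeries F) : ℕ → LaurentSeries F
  | 0 => x
  | i + 1 => (cq x i - emb (fl (cq x i)))⁻¹

/-- the entries `A_i` of the continued fraction -/
noncomputable def pq (x : LaurentSeries F) (i : ℕ) : F[X] := fl (cq x i)

/-- the length of the period -/
noncomputable def per (x : LaurentSeries F) : ℕ :=
  sInf {l | 0 < l ∧ ∃ i₀, ∀ i ≥ i₀, pq x (i + l) = pq x i}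

/-- the first index `≥ 1` from which the expansion is periodic -/
noncomputable def st (x : LaurentSeries F) : ℕ :=
  sInf {i₀ | 0 < i₀ ∧ ∀ i ≥ i₀, pq x (i + per x) = pq x i}

/-- the escape ratio over one period -/
noncomputable def esc (x : LaurentSeries F) (n : ℕ) : ℝ :=
  (∑ i ∈ Finset.range (per x), max (((pq x (st x + i)).natDegree : ℝ) - n) 0) /
    ∑ i ∈ Finset.range (per x), ((pq x (st x + i)).natDegree : ℝ)

lemma cq_eq (x : LaurentSeries F) (i : ℕ) : cq x i = Pool.Agent.H.MP_81ecdf_nt.cq x i := by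
  induction i with
  | zero => rfl
  | succ i ih => rw [cq, ih]; rfl

lemma pq_eq : (pq : LaurentSeries F → ℕ → F[X]) = Pool.Agent.H.MP_81ecdf_nt.pq := by
  funext x i
  rw [pq, cq_eq]; rfl

lemma per_eq : (per : LaurentSeries F → ℕ) = Pool.Agent.H.MP_81ecdf_nt.per := by
  funext x
  rw [per, pq_eq]; rfl

lemma st_eq : (st : LaurentSeries F → ℕ) = Pool.Agent.H.MP_81ecdf_nt.st := by
  funext x
  rw [st, pq_eq, per_eq]; rfl

lemma esc_eq : (esc : LaurentSeries F → ℕ → ℝ) = Pool.Agent.H.MP_81ecdf_nt.esc := by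
  funext x n
  rw [esc, pq_eq, per_eq, st_eq]; rfl

open Pool.Agent.H.MP_81ecdf_nt hiding emb fl cq pq per st esc in
theorem result : ∃ Θ : LaurentSeries (ZMod 2),
    (∀ a b : (ZMod 2)[X], a ≠ 0 → emb a * Θ ≠ emb b) ∧
    Θ ^ 2 + emb (X ^ 2 + 1) * Θ + emb X = 0 ∧
    Irreducible (X : (ZMod 2)[X]) ∧
    (∀ k : ℕ, ∃ l, 0 < l ∧ ∃ i₀, ∀ i ≥ i₀, pq (Θ * emb (X ^ k)) (i + l) = pq (Θ * emb (X ^ k)) i) ∧
    (∀ k i : ℕ, 1 ≤ (pq (Θ * emb (X ^ k)) (i + 1)).natDegree) ∧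
    ∃ ε : ℝ, 0 < ε ∧ ∀ n : ℕ, 1 ≤ n →
      Tendsto (fun m : ℕ =>
        (({k : ℕ | 1 - ε < esc (Θ * emb (X ^ k)) n} ∩ Set.Icc 1 m).ncard : ℝ) / m) atTop (𝓝 0) := by
  obtain ⟨θ, θ', c⟩ := exists_ctx
  have hk : ∀ k : ℕ, θ * emb (X ^ k) = T ^ k * θ := by
    intro k
    rw [mul_comm, T, ← emb_pow]; rfl
  have h1 : ∀ a b : (ZMod 2)[X], a ≠ 0 → emb a * θ ≠ emb b := by
    have := c.irr 0
    rw [pow_zero, one_mul] at this
    exact this
  have h2 : θ ^ 2 + emb (X ^ 2 + 1) * θ + emb X = 0 := by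
    have : emb (X ^ 2 + 1 : (ZMod 2)[X]) = T ^ 2 + 1 := by
      rw [T, ← emb_pow, ← emb_one, ← emb_add]; rfl
    rw [this]
    change _ + _ + T = 0
    linear_combination c.hp - θ * c.hs + (θ ^ 2 + T) * two_zero
  have h3 : ∀ k : ℕ, ∃ l, 0 < l ∧ ∃ i₀, ∀ i ≥ i₀,
      pq (θ * emb (X ^ k)) (i + l) = pq (θ * emb (X ^ k)) i := by
    intro k
    rw [hk, pq_eq]; exact periodic c k
  have h4 : ∀ n : ℕ, 1 ≤ n → ∀ k : ℕ, 8 ≤ k → esc (θ * emb (X ^ k)) n ≤ 39 / 40 := by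
    intro n hn k h8
    rw [hk, esc_eq]; exact esc_le c h8 hn
  have h0 : ∀ k i : ℕ, 1 ≤ (pq (θ * emb (X ^ k)) (i + 1)).natDegree := by
    intro k i
    rw [hk, pq_eq]; exact (vv_cq (c.irr k) i).2
  refine ⟨θ, h1, h2, irreducible_X, h3, h0, 1 / 40, by norm_num, fun n hn => ?_⟩
  refine squeeze_zero (fun m => by positivity) (fun m => ?_)
    (tendsto_const_div_atTop_nhds_zero_nat (8 : ℝ))
  refine div_le_div_of_nonneg_right ?_ (Nat.cast_nonneg _)
  have h5 : {k : ℕ | 1 - 1 / 40 < esc (θ * emb (X ^ k)) n} ∩ Set.Icc 1 m ⊆ Set.Iio 8 := by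
    rintro k ⟨h6, -⟩
    by_contra h7
    have := h4 n hn k (not_lt.mp h7)
    simp only [Set.mem_setOf_eq] at h6
    linarith
  have h6 := Set.ncard_le_ncard h5 (Set.finite_Iio 8)
  rw [Set.ncard_Iio_nat] at h6
  exact_mod_cast h6

end Pool.Agent.Results.MP_3bedcc_nt.NoGenEscape
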